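import Pool.Agent.helper66.FB.Spec
import Pool.Agent.helper66.FB.KC

/-!
Module NF of part B of the functional form of MP_5ae64c_pr: near and far visits to the current state.
-/

set_option autoImplicit false

open scoped BigOperators Topology
open Filter MeasureTheory

namespace Pool.Agent.helper66.FB

open Finset
open Pool.Agent.helper20.HP

section Lists
variable {V : Type} [DecidableEq V]

theorem NF_recent (b : ℕ) (y : V) (l : List V) (w : V) (hw : w ∈ l.rtake b) :
    ∃ a, a < b ∧ a ≤ l.length ∧ w = lst y (l.rdrop a) := by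
  unfold List.rtake at hw
  obtain ⟨i, hi, hiw⟩ := List.mem_iff_getElem.mp hw
  rw [List.getElem_drop] at hiw
  rw [List.length_drop] at hi
  have hb : i < b := by omega
  have hj : l.length - b + i < l.length := by omega
  refine ⟨l.length - 1 - (l.length - b + i), by omega, by omega, ?_⟩
  unfold List.rdrop
  have h1 : l.length - (l.length - 1 - (l.length - b + i)) = (l.length - b + i) + 1 := by omega
  rw [h1, List.take_succ_eq_append_getElem hj, lst_concat]
  exact hiw.symm

theorem NF_point (b : ℕ) (y : V) (l : List V) (w : V) :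
    ind (w ∈ run [y] l) ≤ ∑ a ∈ range b, ind (a ≤ l.length) * ind (w = lst y (l.rdrop a)) +
      ind (b ≤ l.length) * ind (w ∈ run [y] (l.rdrop b)) := by
  have hs0 : 0 ≤ ∑ a ∈ range b, ind (a ≤ l.length) * ind (w = lst y (l.rdrop a)) :=
    Finset.sum_nonneg (fun _ _ => mul_nonneg (ind_nonneg _) (ind_nonneg _))
  have hs1 : 0 ≤ ind (b ≤ l.length) * ind (w ∈ run [y] (l.rdrop b)) :=
    mul_nonneg (ind_nonneg _) (ind_nonneg _)
  by_cases h : w ∈ run [y] l
  · rw [ind_true h]
    by_cases h1 : ∃ a, a < b ∧ a ≤ l.length ∧ w = lst y (l.rdrop a)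
    · obtain ⟨a, h2, h3, h4⟩ := h1
      have h5 : (1 : ℝ) ≤ ∑ a ∈ range b, ind (a ≤ l.length) * ind (w = lst y (l.rdrop a)) := by
        calc (1 : ℝ) = ind (a ≤ l.length) * ind (w = lst y (l.rdrop a)) := by
              rw [ind_true h3, ind_true h4, one_mul]
          _ ≤ _ := Finset.single_le_sum
                (f := fun a => ind (a ≤ l.length) * ind (w = lst y (l.rdrop a)))
                (fun i _ => mul_nonneg (ind_nonneg _) (ind_nonneg _)) (Finset.mem_range.mpr h2)
      linarith
    · have h5 : w ∉ l.rtake b := fun h6 => h1 (NF_recent b y l w h6)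
      have h6 : l.rdrop b ++ l.rtake b = l := by
        unfold List.rdrop List.rtake
        exact List.take_append_drop _ _
      have h7 : w ∈ run [y] (l.rdrop b) :=
        (persist [y] (l.rdrop b) (l.rtake b) (List.nodup_singleton y) w (by rw [h6]; exact h) h5).1
      have h8 : b ≤ l.length := by
        by_contra h9
        push Not at h9
        apply h1
        refine ⟨l.length, h9, le_rfl, ?_⟩
        have h10 : l.rdrop b = [] := by
          unfold List.rdrop; rw [Nat.sub_eq_zero_of_le h9.le]; rfl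
        have h11 : l.rdrop l.length = [] := by
          unfold List.rdrop; rw [Nat.sub_self]; rfl
        rw [h10, run_nil] at h7
        rw [h11, lst_nil]
        exact List.mem_singleton.mp h7
      rw [ind_true h8, ind_true h7]
      linarith
  · rw [ind_false h]
    linarith

end Lists

section
variable {V : Type} [Fintype V] [DecidableEq V] (K : HW V) (D : Finset V)

/-- one term of the recent part -/
theorem NF_one (N a u : ℕ) :
    kws K D N (fun y l => ind (a ≤ l.length) *
        W K u (lst y l) (fun l' => ind (lst (lst y l) l' = lst y (l.rdrop a)))) ≤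
      cc K (a + u) * kws K D N (fun _ _ => 1) := by
  have h0 : ∀ (y : V) (l : List V), 0 ≤ W K u (lst y l)
      (fun l' => ind (lst (lst y l) l' = lst y (l.rdrop a))) :=
    fun y l => W_nonneg K u _ (fun _ _ => ind_nonneg _)
  refine (kws_long_le K D N a h0).trans ?_
  rw [← kws_mul_left]
  refine kws_mono K D N (fun y _ l _ _ => ?_)
  rw [mul_one, ← cc_eq K (a + u) (lst y l), ← W_ind_lst K (a + u) (lst y l) (lst y l), W_split]
  refine W_mono K a _ (fun l1 hl1 => ?_)
  rw [lst_append]
  refine W_mono K u _ (fun l' _ => ?_)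
  have h1 : (l ++ l1).rdrop a = l := by
    unfold List.rdrop
    rw [List.length_append, hl1, Nat.add_sub_cancel]
    exact List.take_left
  rw [h1, lst_append]

/-- the far part -/
theorem NF_far {θ : ℝ} {h : ℕ} (hP : Par K θ h) (m N : ℕ) (Λ : ℝ) (hΛ : 0 ≤ Λ) :
    kws K D N (fun y l => ind (2 * h ≤ l.length) *
        (ind (((run [y] (l.rdrop (2 * h))).length : ℝ) ≤ Λ) *
          ∑ u ∈ range m, W K u (lst y l)
            (fun l' => ind (lst (lst y l) l' ∈ run [y] (l.rdrop (2 * h)))))) ≤
      (m * Λ * (3 / (2 * (Fintype.card V : ℝ)))) * kws K D N (fun _ _ => 1) := by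
  have hn : 0 < Fintype.card V := hP.card_pos
  have hnR : (0 : ℝ) < (Fintype.card V : ℝ) := by exact_mod_cast hn
  have h0 : ∀ (y : V) (l : List V), 0 ≤ ind (((run [y] (l.rdrop (2 * h))).length : ℝ) ≤ Λ) *
          ∑ u ∈ range m, W K u (lst y l)
            (fun l' => ind (lst (lst y l) l' ∈ run [y] (l.rdrop (2 * h)))) :=
    fun y l => mul_nonneg (ind_nonneg _) (Finset.sum_nonneg
      (fun u _ => W_nonneg K u _ (fun _ _ => ind_nonneg _)))
  refine (kws_long_le K D N (2 * h) h0).trans ?_
  rw [← kws_mul_left]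
  refine kws_mono K D N (fun y _ l _ _ => ?_)
  rw [mul_one]
  have h1 : ∀ l1 : List V, l1.length = 2 * h → (l ++ l1).rdrop (2 * h) = l := by
    intro l1 hl1
    unfold List.rdrop
    rw [List.length_append, hl1, Nat.add_sub_cancel]
    exact List.take_left
  by_cases hL : ((run [y] l).length : ℝ) ≤ Λ
  · have h2 : W K (2 * h) (lst y l) (fun l1 =>
        ind (((run [y] ((l ++ l1).rdrop (2 * h))).length : ℝ) ≤ Λ) *
          ∑ u ∈ range m, W K u (lst y (l ++ l1))
            (fun l' => ind (lst (lst y (l ++ l1)) l' ∈ run [y] ((l ++ l1).rdrop (2 * h)))))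
        = ∑ u ∈ range m, W K (2 * h + u) (lst y l)
            (fun l'' => ind (lst (lst y l) l'' ∈ run [y] l)) := by
      have h3 : ∀ u ∈ range m, W K (2 * h + u) (lst y l)
            (fun l'' => ind (lst (lst y l) l'' ∈ run [y] l)) =
            W K (2 * h) (lst y l) (fun l1 => W K u (lst (lst y l) l1)
              (fun l' => ind (lst (lst y l) (l1 ++ l') ∈ run [y] l))) := by
        intro u _
        rw [W_split]
      rw [Finset.sum_congr rfl h3, ← W_sum]
      refine W_congr K (2 * h) _ (fun l1 hl1 => ?_)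
      rw [h1 l1 hl1, ind_true hL, one_mul, lst_append]
      refine Finset.sum_congr rfl (fun u _ => ?_)
      refine W_congr K u _ (fun l' _ => ?_)
      rw [lst_append]
    rw [h2]
    have h4 : ∀ u ∈ range m, W K (2 * h + u) (lst y l)
            (fun l'' => ind (lst (lst y l) l'' ∈ run [y] l)) ≤
            Λ * (3 / (2 * (Fintype.card V : ℝ))) := by
      intro u _
      have h5 := W_ind_mem_le (K := K) (2 * h + u) (lst y l) (run [y] l)
        (3 / (2 * (Fintype.card V : ℝ))) (fun z => hP.mix (2 * h + u) (by omega) (lst y l) z)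
      refine h5.trans ?_
      exact mul_le_mul_of_nonneg_right hL (by positivity)
    calc ∑ u ∈ range m, W K (2 * h + u) (lst y l)
            (fun l'' => ind (lst (lst y l) l'' ∈ run [y] l))
        ≤ ∑ u ∈ range m, Λ * (3 / (2 * (Fintype.card V : ℝ))) := Finset.sum_le_sum h4
      _ = m * Λ * (3 / (2 * (Fintype.card V : ℝ))) := by
          rw [Finset.sum_const, Finset.card_range, nsmul_eq_mul]; ring
  · have h2 : W K (2 * h) (lst y l) (fun l1 =>
        ind (((run [y] ((l ++ l1).rdrop (2 * h))).length : ℝ) ≤ Λ) *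
          ∑ u ∈ range m, W K u (lst y (l ++ l1))
            (fun l' => ind (lst (lst y (l ++ l1)) l' ∈ run [y] ((l ++ l1).rdrop (2 * h)))))
        = W K (2 * h) (lst y l) (fun _ => 0) := by
      refine W_congr K (2 * h) _ (fun l1 hl1 => ?_)
      rw [h1 l1 hl1, ind_false hL, zero_mul]
    rw [h2, W_const]
    positivity

end

theorem NF : NF_stmt := by
  intro K1 V _ _ K θ h hP D m N Λ hm hΛ
  have hn : 0 < Fintype.card V := hP.card_pos
  have hnR : (0 : ℝ) < (Fintype.card V : ℝ) := by exact_mod_cast hn
  have hmass : kws K D N (fun _ _ => 1) ≤ (Fintype.card V : ℝ) := by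
    have h1 := K1 V K D N (fun _ => 1) (fun _ => zero_le_one)
    simpa using h1
  -- pointwise
  have hpt : ∀ (y : V) (l : List V),
      ind (((run [y] (l.rdrop (2 * h))).length : ℝ) ≤ Λ) *
        ∑ u ∈ range m, W K u (lst y l) (fun l' => ind (lst (lst y l) l' ∈ run [y] l)) ≤
      (∑ a ∈ range (2 * h), ∑ u ∈ range m, ind (a ≤ l.length) *
        W K u (lst y l) (fun l' => ind (lst (lst y l) l' = lst y (l.rdrop a)))) +
      ind (2 * h ≤ l.length) *
        (ind (((run [y] (l.rdrop (2 * h))).length : ℝ) ≤ Λ) *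
          ∑ u ∈ range m, W K u (lst y l)
            (fun l' => ind (lst (lst y l) l' ∈ run [y] (l.rdrop (2 * h))))) := by
    intro y l
    have h1 : ∀ u ∈ range m, W K u (lst y l) (fun l' => ind (lst (lst y l) l' ∈ run [y] l)) ≤
        (∑ a ∈ range (2 * h), ind (a ≤ l.length) *
          W K u (lst y l) (fun l' => ind (lst (lst y l) l' = lst y (l.rdrop a)))) +
        ind (2 * h ≤ l.length) * W K u (lst y l)
            (fun l' => ind (lst (lst y l) l' ∈ run [y] (l.rdrop (2 * h)))) := by
      intro u _
      have h2 : ∀ a ∈ range (2 * h), ind (a ≤ l.length) *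
          W K u (lst y l) (fun l' => ind (lst (lst y l) l' = lst y (l.rdrop a))) =
          W K u (lst y l) (fun l' => ind (a ≤ l.length) *
            ind (lst (lst y l) l' = lst y (l.rdrop a))) := by
        intro a _
        rw [W_mul_left]
      rw [Finset.sum_congr rfl h2, ← W_sum, ← W_mul_left, ← W_add]
      exact W_mono K u _ (fun l' _ => NF_point (2 * h) y l (lst (lst y l) l'))
    have h3 := Finset.sum_le_sum h1
    rw [Finset.sum_add_distrib, Finset.sum_comm, ← Finset.mul_sum] at h3
    have h4 : 0 ≤ ∑ a ∈ range (2 * h), ∑ u ∈ range m, ind (a ≤ l.length) *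
        W K u (lst y l) (fun l' => ind (lst (lst y l) l' = lst y (l.rdrop a))) :=
      Finset.sum_nonneg (fun a _ => Finset.sum_nonneg (fun u _ =>
        mul_nonneg (ind_nonneg _) (W_nonneg K u _ (fun _ _ => ind_nonneg _))))
    by_cases hL : ((run [y] (l.rdrop (2 * h))).length : ℝ) ≤ Λ
    · rw [ind_true hL, one_mul, one_mul]
      exact h3
    · rw [ind_false hL, zero_mul, zero_mul, mul_zero, add_zero]
      exact h4
  have h1 := kws_mono K D N (fun y _ l _ _ => hpt y l)
  rw [kws_add, kws_sum] at h1
  have h2 : ∀ a ∈ range (2 * h), kws K D N (fun y l => ∑ u ∈ range m, ind (a ≤ l.length) *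
        W K u (lst y l) (fun l' => ind (lst (lst y l) l' = lst y (l.rdrop a)))) ≤
        ∑ u ∈ range m, cc K (a + u) * (Fintype.card V : ℝ) := by
    intro a _
    rw [kws_sum]
    refine Finset.sum_le_sum (fun u _ => ?_)
    exact (NF_one K D N a u).trans (mul_le_mul_of_nonneg_left hmass (cc_nonneg K _))
  have h3 := Finset.sum_le_sum h2
  have h4 : ∑ a ∈ range (2 * h), ∑ u ∈ range m, cc K (a + u) * (Fintype.card V : ℝ) ≤
      θ * (Fintype.card V : ℝ) := by
    have h5 : ∑ a ∈ range (2 * h), ∑ u ∈ range m, cc K (a + u) * (Fintype.card V : ℝ) =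
        (∑ a ∈ range (2 * h), ∑ u ∈ range m, cc K (a + u)) * (Fintype.card V : ℝ) := by
      rw [Finset.sum_mul]
      exact Finset.sum_congr rfl (fun a _ => by rw [Finset.sum_mul])
    rw [h5]
    have h6 := hP.h_le
    exact mul_le_mul_of_nonneg_right (cc_double_le hP (by omega)) hnR.le
  have h5 := NF_far K D hP m N Λ hΛ
  have h6 : (m * Λ * (3 / (2 * (Fintype.card V : ℝ)))) * kws K D N (fun _ _ => 1) ≤
      (m * Λ * (3 / (2 * (Fintype.card V : ℝ)))) * (Fintype.card V : ℝ) :=
    mul_le_mul_of_nonneg_left hmass (by positivity)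
  calc _ ≤ _ := h1
    _ ≤ θ * (Fintype.card V : ℝ) +
        (m * Λ * (3 / (2 * (Fintype.card V : ℝ)))) * (Fintype.card V : ℝ) := by
        refine add_le_add (h3.trans h4) (h5.trans h6)
    _ = _ := by ring

end Pool.Agent.helper66.FB
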